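import Pool.Agent.Helper33.DP.Sheet

/-!
# Row CLM: the column sums in a block
-/

set_option autoImplicit false

namespace Pool.Agent.Helper78.PL

open Finset Pool.Agent.Helper33.DP

/-- Harmonic mean and arithmetic mean. -/
theorem hm_am {ι : Type} (s : Finset ι) (f : ι → ℝ) (hf : ∀ i ∈ s, 0 < f i) (S : ℝ)
    (hS : ∑ i ∈ s, f i ≤ S) (hne : s.Nonempty) :
    (s.card : ℝ) * S⁻¹ ≤ (s.card : ℝ)⁻¹ * ∑ i ∈ s, (f i)⁻¹ := by
  have h1 : (∑ i ∈ s, (1 : ℝ)) ^ 2 ≤ (∑ i ∈ s, f i) * ∑ i ∈ s, (f i)⁻¹ := by
    apply Finset.sum_sq_le_sum_mul_sum_of_sq_le_mul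
    · intro i hi; exact (hf i hi).le
    · intro i hi; exact (inv_pos.2 (hf i hi)).le
    · intro i hi
      rw [mul_inv_cancel₀ (hf i hi).ne']
      norm_num
  rw [Finset.sum_const, nsmul_eq_mul, mul_one] at h1
  have h2 : 0 < ∑ i ∈ s, f i := Finset.sum_pos hf hne
  have h3 : (0 : ℝ) < s.card := by exact_mod_cast hne.card_pos
  have h4 : 0 < S := lt_of_lt_of_le h2 hS
  have h5 : 0 ≤ ∑ i ∈ s, (f i)⁻¹ := Finset.sum_nonneg (fun i hi => (inv_pos.2 (hf i hi)).le)
  have h6 : (s.card : ℝ) ^ 2 ≤ S * ∑ i ∈ s, (f i)⁻¹ :=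
    h1.trans (mul_le_mul_of_nonneg_right hS h5)
  rw [← div_eq_mul_inv, div_le_iff₀ h4]
  have h7 : (s.card : ℝ) = (s.card : ℝ)⁻¹ * (s.card : ℝ) ^ 2 := by field_simp
  calc (s.card : ℝ) = (s.card : ℝ)⁻¹ * (s.card : ℝ) ^ 2 := h7
    _ ≤ (s.card : ℝ)⁻¹ * (S * ∑ i ∈ s, (f i)⁻¹) :=
        mul_le_mul_of_nonneg_left h6 (inv_pos.2 h3).le
    _ = (s.card : ℝ)⁻¹ * (∑ i ∈ s, (f i)⁻¹) * S := by ring

theorem CLM (h1 : ST_DS1) : ST_CLM := by
  classical
  intro w G G₁ G₂ μ β hG₁ hG₂ hc hst hμ hB
  obtain ⟨σ, hσ⟩ := hG₁.ex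
  obtain ⟨τ, hτ⟩ := hG₂.ex
  set N1 : Fin w → Finset (Fin w) := fun x => univ.filter (fun a => (a, x) ∈ G₁) with hN1
  set N : Fin w → Finset (Fin w) := fun b => univ.filter (fun a => (a, b) ∈ G) with hN
  have hNN : ∀ x b, (x, b) ∈ G₂ → N1 x = N b := by
    intro x b hxb
    ext a
    simp only [hN1, hN, mem_filter, mem_univ, true_and]
    constructor
    · intro ha
      rw [← hc]
      simp only [comp, mem_filter, mem_univ, true_and]
      exact ⟨x, ha, hxb⟩
    · intro ha
      exact hst a x b ha hxb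
  set T : Fin w → Finset (Fin w) := fun b => univ.filter (fun x => N1 x = N b) with hT
  have hTpos : ∀ b, 0 < (T b).card := by
    intro b
    apply Finset.card_pos.2
    refine ⟨τ.symm b, ?_⟩
    simp only [hT, mem_filter, mem_univ, true_and]
    apply hNN
    have := hτ (τ.symm b)
    rwa [Equiv.apply_symm_apply] at this
  -- the number of columns of G with the same neighbourhood
  have hcard1 : ∀ S : Finset (Fin w), (univ.filter (fun b => N b = S)).card =
      (univ.filter (fun x => N1 x = S)).card := by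
    intro S
    symm
    apply Finset.card_bij (fun x _ => τ x)
    · intro x hx
      simp only [mem_filter, mem_univ, true_and] at hx ⊢
      rw [← hNN x (τ x) (hτ x)]; exact hx
    · intro x _ y _ hxy
      exact τ.injective hxy
    · intro b hb
      simp only [mem_filter, mem_univ, true_and] at hb
      refine ⟨τ.symm b, ?_, by simp⟩
      simp only [mem_filter, mem_univ, true_and]
      rw [hNN (τ.symm b) b (by have := hτ (τ.symm b); rwa [Equiv.apply_symm_apply] at this)]
      exact hb
  have hcard2 : ∀ S : Finset (Fin w), (univ.filter (fun a => N1 (σ a) = S)).card =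
      (univ.filter (fun x => N1 x = S)).card := by
    intro S
    apply Finset.card_bij (fun a _ => σ a)
    · intro a ha
      simp only [mem_filter, mem_univ, true_and] at ha ⊢
      exact ha
    · intro x _ y _ hxy
      exact σ.injective hxy
    · intro x hx
      simp only [mem_filter, mem_univ, true_and] at hx
      refine ⟨σ.symm x, ?_, by simp⟩
      simp only [mem_filter, mem_univ, true_and, Equiv.apply_symm_apply]
      exact hx
  set D : Fin w → Fin w → ℝ := fun a b => if N1 (σ a) = N b then ((T b).card : ℝ)⁻¹ else 0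
    with hD
  have hDS : DS G D := by
    refine ⟨?_, ?_, ?_, ?_⟩
    · intro a b
      simp only [hD]
      split_ifs
      · positivity
      · exact le_refl _
    · intro a
      have h2 : ∀ b, D a b = if N b = N1 (σ a) then
          (((univ.filter (fun x => N1 x = N1 (σ a))).card : ℕ) : ℝ)⁻¹ else 0 := by
        intro b
        simp only [hD]
        by_cases h : N1 (σ a) = N b
        · rw [if_pos h, if_pos h.symm]
          simp only [hT]
          rw [h]
        · rw [if_neg h, if_neg (fun h' => h h'.symm)]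
      rw [Finset.sum_congr rfl (fun b _ => h2 b), ← Finset.sum_filter, Finset.sum_const,
        nsmul_eq_mul, hcard1]
      apply mul_inv_cancel₀
      have : 0 < (univ.filter (fun x => N1 x = N1 (σ a))).card :=
        Finset.card_pos.2 ⟨σ a, by simp⟩
      exact_mod_cast this.ne'
    · intro b
      simp only [hD]
      rw [← Finset.sum_filter, Finset.sum_const, nsmul_eq_mul, hcard2]
      apply mul_inv_cancel₀
      have := hTpos b
      simp only [hT] at this
      exact_mod_cast this.ne'
    · intro a b hab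
      simp only [hD]
      rw [if_neg]
      intro h
      apply hab
      have h3 : a ∈ N1 (σ a) := by
        simp only [hN1, mem_filter, mem_univ, true_and]
        exact hσ a
      rw [h] at h3
      simpa only [hN, mem_filter, mem_univ, true_and] using h3
  have h2 := h1 w G μ D β hB hDS
  refine le_trans ?_ h2
  rw [Finset.sum_comm]
  -- the left side by columns
  have h3 : ∑ e ∈ G₂, (∑ a, μ a e.2)⁻¹ =
      ∑ b, ((univ.filter (fun x => (x, b) ∈ G₂)).card : ℝ) * (∑ a, μ a b)⁻¹ := by
    rw [← Finset.sum_fiberwise G₂ (fun e => e.2) (fun e => (∑ a, μ a e.2)⁻¹)]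
    refine Finset.sum_congr rfl (fun b _ => ?_)
    have h4 : ∀ e ∈ G₂.filter (fun e => e.2 = b), (∑ a, μ a e.2)⁻¹ = (∑ a, μ a b)⁻¹ := by
      intro e he
      rw [(mem_filter.1 he).2]
    rw [Finset.sum_congr rfl h4, Finset.sum_const, nsmul_eq_mul]
    congr 2
    apply Finset.card_bij (fun e _ => e.1)
    · intro e he
      obtain ⟨he1, he2⟩ := mem_filter.1 he
      simp only [mem_filter, mem_univ, true_and]
      rw [← he2]; exact he1
    · intro e he e' he' hee
      exact Prod.ext hee ((mem_filter.1 he).2.trans (mem_filter.1 he').2.symm)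
    · intro x hx
      simp only [mem_filter, mem_univ, true_and] at hx
      exact ⟨(x, b), mem_filter.2 ⟨hx, rfl⟩, rfl⟩
  rw [h3]
  refine Finset.sum_le_sum (fun b _ => ?_)
  -- the set of the rows
  set A : Finset (Fin w) := univ.filter (fun a => N1 (σ a) = N b) with hA
  have hAT : A.card = (T b).card := hcard2 (N b)
  have hAne : A.Nonempty := by
    rw [← Finset.card_pos, hAT]; exact hTpos b
  have hAmem : ∀ a ∈ A, (a, b) ∈ G := by
    intro a ha
    have h5 : N1 (σ a) = N b := (mem_filter.1 ha).2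
    have h6 : a ∈ N1 (σ a) := by
      simp only [hN1, mem_filter, mem_univ, true_and]
      exact hσ a
    rw [h5] at h6
    simpa only [hN, mem_filter, mem_univ, true_and] using h6
  have h7 : ∑ a ∈ A, μ a b ≤ ∑ a, μ a b :=
    Finset.sum_le_sum_of_subset_of_nonneg (Finset.subset_univ _) (fun a _ _ => hμ a b)
  have h8 := hm_am A (fun a => μ a b) (fun a ha => hB.pos a b (hAmem a ha)) _ h7 hAne
  have h9 : ∑ a, D a b * (μ a b)⁻¹ = (A.card : ℝ)⁻¹ * ∑ a ∈ A, (μ a b)⁻¹ := by
    rw [Finset.mul_sum, hA, Finset.sum_filter]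
    refine Finset.sum_congr rfl (fun a _ => ?_)
    simp only [hD]
    split_ifs
    · rw [← hAT]
    · rw [zero_mul]
  rw [h9]
  refine le_trans ?_ h8
  have h10 : 0 < ∑ a, μ a b :=
    lt_of_lt_of_le (Finset.sum_pos (fun a ha => hB.pos a b (hAmem a ha)) hAne) h7
  apply mul_le_mul_of_nonneg_right _ (inv_pos.2 h10).le
  rw [hAT]
  have h11 : (univ.filter (fun x => (x, b) ∈ G₂)).card ≤ (T b).card := by
    apply Finset.card_le_card
    intro x hx
    simp only [hT, mem_filter, mem_univ, true_and] at hx ⊢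
    exact hNN x b hx
  exact_mod_cast h11

end Pool.Agent.Helper78.PL
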