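import Pool.Agent.Helper33.DP.Sheet

/-!
# Row GT: transposition, and case B transposed
-/

set_option autoImplicit false

namespace Pool.Agent.Helper78.PL

open Finset Pool.Agent.Helper33.DP

variable {w : ℕ}

theorem mem_tr {G : Gr w} {a b : Fin w} : (a, b) ∈ tr G ↔ (b, a) ∈ G := by
  unfold tr
  rw [Finset.mem_map]
  constructor
  · rintro ⟨⟨x, y⟩, h, he⟩
    simp only [Equiv.coe_toEmbedding, Equiv.prodComm_apply, Prod.swap_prod_mk, Prod.mk.injEq] at he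
    rw [← he.1, ← he.2]; exact h
  · intro h
    exact ⟨(b, a), h, rfl⟩

theorem tr_tr (G : Gr w) : tr (tr G) = G := by
  ext ⟨a, b⟩
  rw [mem_tr, mem_tr]

theorem card_tr (G : Gr w) : (tr G).card = G.card := by
  unfold tr
  rw [Finset.card_map]

theorem pm_tr {G : Gr w} {σ : Equiv.Perm (Fin w)} (h : PM (tr G) σ) : PM G σ.symm := by
  intro i
  have h1 := h (σ.symm i)
  rw [mem_tr, Equiv.apply_symm_apply] at h1
  exact h1

theorem pm_tr' {G : Gr w} {σ : Equiv.Perm (Fin w)} (h : PM G σ) : PM (tr G) σ.symm := by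
  apply pm_tr
  rw [tr_tr]
  exact h

theorem isCore_tr {G : Gr w} (h : IsCore G) : IsCore (tr G) := by
  refine ⟨?_, ?_⟩
  · obtain ⟨σ, hσ⟩ := h.ex
    exact ⟨σ.symm, pm_tr' hσ⟩
  · intro a b hab
    rw [mem_tr] at hab
    obtain ⟨σ, hσ, h1⟩ := h.edge b a hab
    exact ⟨σ.symm, pm_tr' hσ, by rw [← h1, Equiv.symm_apply_apply]⟩

theorem mem_comp {G₁ G₂ : Gr w} {a b : Fin w} :
    (a, b) ∈ comp G₁ G₂ ↔ ∃ x, (a, x) ∈ G₁ ∧ (x, b) ∈ G₂ := by
  simp only [comp, mem_filter, mem_univ, true_and]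

theorem comp_tr (G₁ G₂ : Gr w) : comp (tr G₂) (tr G₁) = tr (comp G₁ G₂) := by
  ext ⟨a, b⟩
  rw [mem_tr, mem_comp, mem_comp]
  constructor
  · rintro ⟨x, h1, h2⟩
    exact ⟨x, mem_tr.1 h2, mem_tr.1 h1⟩
  · rintro ⟨x, h1, h2⟩
    exact ⟨x, mem_tr.2 h2, mem_tr.2 h1⟩

theorem tr_mono {G G' : Gr w} (h : G ⊆ G') : tr G ⊆ tr G' := by
  rintro ⟨a, b⟩ hab
  rw [mem_tr] at hab ⊢
  exact h hab

theorem ds_tr {G : Gr w} {D : Fin w → Fin w → ℝ} (h : DS G D) : DS (tr G) (fun a b => D b a) :=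
  ⟨fun a b => h.nonneg b a, fun a => h.col a, fun b => h.row b,
    fun a b hab => h.supp b a (fun h' => hab (mem_tr.2 h'))⟩

theorem bdd_tr {G : Gr w} {μ : Fin w → Fin w → ℝ} {β : ℝ} (h : Bdd G μ β) :
    Bdd (tr G) (fun a b => μ b a) β := by
  refine ⟨fun a b hab => h.pos b a (mem_tr.1 hab), ?_⟩
  intro σ hσ
  have h1 := h.le σ.symm (pm_tr hσ)
  refine le_trans (le_of_eq ?_) h1
  rw [← Equiv.sum_comp σ (fun i => (μ i (σ.symm i))⁻¹)]
  simp only [Equiv.symm_apply_apply]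

theorem errLe_tr {δ : Fin w → Fin w → ℝ} {E : ℝ} (h : ErrLe δ E) :
    ErrLe (fun a b => δ b a) E := by
  intro q v
  have h1 := h v q
  have h2 : ∑ a, ∑ b, q a * δ b a * v b = ∑ a, ∑ b, v a * δ a b * q b := by
    rw [Finset.sum_comm]
    refine Finset.sum_congr rfl (fun a _ => Finset.sum_congr rfl (fun b _ => ?_))
    ring
  rw [h2]
  refine h1.trans (le_of_eq ?_)
  ring

theorem GT : ST_GT := by
  intro w G μ h
  obtain ⟨h1, ρ, h2, h3, h4⟩ := h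
  refine ⟨fun a b hab => h1 b a (fun h' => hab (mem_tr.2 h')), fun a b => ρ b a,
    fun a b hab => h2 b a (fun h' => hab (mem_tr.2 h')), ?_, errLe_tr h4⟩
  rw [card_tr]
  exact bdd_tr h3

theorem route_tr {G₁ G₂ : Gr w} {μ : Fin w → Fin w → ℕ} {z : Fin w → Fin w → Fin w → ℕ}
    (h : Route (tr G₂) (tr G₁) (fun a b => μ b a) z) :
    Route G₁ G₂ μ (fun a x b => z b x a) := by
  refine ⟨?_, ?_⟩
  · intro a x b hz
    obtain ⟨h1, h2⟩ := h.supp b x a hz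
    exact ⟨mem_tr.1 h2, mem_tr.1 h1⟩
  · intro a b hab
    refine h.sum b a ?_
    rw [comp_tr, mem_tr]
    exact hab

theorem stepC_tr {G₁ G₂ : Gr w} {μ : Fin w → Fin w → ℕ}
    (h : StepC (tr G₂) (tr G₁) (fun a b => μ b a)) : StepC G₁ G₂ μ := by
  obtain ⟨z, h1, h2, h3⟩ := h
  refine ⟨fun a x b => z b x a, route_tr h1, ?_, ?_⟩
  · have h4 := GT w (tr G₁) _ h3
    rw [tr_tr] at h4
    exact h4
  · have h4 := GT w (tr G₂) _ h2
    rw [tr_tr] at h4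
    exact h4

theorem BT (hB : ST_B) : ST_BT := by
  intro w G G₁ G₂ μ hw hG hG₁ hG₂ hc hμ h1 h2
  apply stepC_tr
  refine hB w (tr G) (tr G₂) (tr G₁) _ hw (isCore_tr hG) (isCore_tr hG₂) (isCore_tr hG₁) ?_
    (GT w G μ hμ) ?_ ?_
  · rw [comp_tr]; exact tr_mono hc
  · rw [card_tr, card_tr]; exact h2
  · rw [card_tr, card_tr]; exact h1

end Pool.Agent.Helper78.PL
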