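import Pool.Agent.Helper33.DP3.Sheet
import Pool.Agent.Helper78.PL.GT

/-!
# Row GT3 of the sheet DP3: transposition, and case B transposed
-/

set_option autoImplicit false

namespace Pool.Agent.Helper78.PL

open Finset Pool.Agent.Helper33.DP Pool.Agent.Helper33.DP3

variable {w : ℕ}

theorem GT3 : ST_GT3 := by
  intro w G μ h
  obtain ⟨h1, ρ, dR, dC, h2, h3, h4, h5, h6⟩ := h
  refine ⟨fun a b hab => h1 b a (fun h' => hab (mem_tr.2 h')), fun a b => ρ b a,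
    fun a b => dC b a, fun a b => dR b a, ?_, ?_, ?_, fun a => h6 a, fun b => h5 b⟩
  · intro a b hab
    have h7 := h2 b a (fun h' => hab (mem_tr.2 h'))
    exact ⟨h7.1, h7.2.2, h7.2.1⟩
  · intro a b
    have h7 := h3 b a
    show ((μ b a : ℕ) : ℝ) = ρ b a + dC b a + dR b a
    rw [h7]
    ring
  · rw [card_tr]
    exact bdd_tr h4

theorem stepC3_tr {G₁ G₂ : Gr w} {μ : Fin w → Fin w → ℕ}
    (h : StepC3 (tr G₂) (tr G₁) (fun a b => μ b a)) : StepC3 G₁ G₂ μ := by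
  obtain ⟨z, h1, h2, h3⟩ := h
  refine ⟨fun a x b => z b x a, route_tr h1, ?_, ?_⟩
  · have h4 := GT3 w (tr G₁) _ h3
    rw [tr_tr] at h4
    exact h4
  · have h4 := GT3 w (tr G₂) _ h2
    rw [tr_tr] at h4
    exact h4

theorem BT3 (hB : ST_B3) : ST_BT3 := by
  intro w G G₁ G₂ μ hw hG hG₁ hG₂ hc hμ h1 h2
  apply stepC3_tr
  refine hB w (tr G) (tr G₂) (tr G₁) _ hw (isCore_tr hG) (isCore_tr hG₂) (isCore_tr hG₁) ?_
    (GT3 w G μ hμ) ?_ ?_
  · rw [comp_tr]; exact tr_mono hc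
  · rw [card_tr, card_tr]; exact h2
  · rw [card_tr, card_tr]; exact h1

end Pool.Agent.Helper78.PL
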